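import Pool.Agent.W58.GU.Stm

/-!
Project GU (MP_18b69d_an): the factorization property of `X`.
-/

namespace Pool.Agent.W540.GU
open Finset Filter Topology Pool.Agent.W58.GU

variable {P : Par} {X : Type} [NormedAddCommGroup X] [NormedSpace ℝ X]

/-- the projection on a set of coordinates -/
theorem exists_proj [CompleteSpace X] (hMUL : S_MUL) (M : Model P X) (A : Set (ℕ ⊕ ℕ)) :
    ∃ Q : X →L[ℝ] X, (∀ x, ‖Q x‖ ≤ ‖x‖) ∧ M.IsProj A Q := by
  classical
  obtain ⟨D, hD1, hD2⟩ := hMUL P X M (fun i => if i ∈ A then 1 else 0) (by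
    intro i
    split_ifs <;> simp)
  refine ⟨D, hD1, ?_⟩
  intro i x
  constructor
  · intro hi
    rw [hD2]
    simp [hi]
  · intro hi
    rw [hD2]
    simp [hi]

theorem rst_pos {A : Set ℕ} {f : ℕ →₀ ℚ} {a : ℕ} (h : a ∈ A) : rst A f a = f a := by
  classical
  simp [rst, h]

theorem rst_neg {A : Set ℕ} {f : ℕ →₀ ℚ} {a : ℕ} (h : a ∉ A) : rst A f a = 0 := by
  classical
  simp [rst, h]

/-- the norm of the projection on a tail of `Z` -/
theorem norm_proj_le (M : Model P X) {N : ℕ} {Q : X →L[ℝ] X} (hQ : M.IsProj (cR N) Q) (w : X)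
    {η : ℝ} (hη : 0 ≤ η) (h : ∀ f, InK P f → |pr f (M.co w)| ≤ η) : ‖Q w‖ ≤ η := by
  refine M.n3 _ _ hη ?_ ?_
  · intro n
    rw [(hQ (Sum.inl n) w).2 (by
      rintro ⟨a, _, h⟩
      cases h)]
    simpa using hη
  · intro f hf
    have e : pr f (fun a => M.e' (Sum.inr a) (Q w)) = pr (rst {a | N ≤ a} f) (M.co w) := by
      have hs : (rst {a | N ≤ a} f).support ⊆ f.support := by
        obtain ⟨θ, _, e⟩ := rst_eq_th {a | N ≤ a} f
        rw [e]
        exact th_support _ _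
      rw [pr_eq _ _ hs, pr]
      refine Finset.sum_congr rfl fun a _ => ?_
      by_cases ha : N ≤ a
      · rw [(hQ (Sum.inr a) w).1 ⟨a, ha, rfl⟩]
        rw [rst_pos (show a ∈ {a | N ≤ a} from ha)]
        rfl
      · rw [(hQ (Sum.inr a) w).2 (by
          rintro ⟨b, hb, h⟩
          cases h
          exact ha hb)]
        rw [rst_neg (show a ∉ {a | N ≤ a} from ha)]
        simp
    rw [e]
    exact h _ (hf.rst _)

theorem fp (hTI : S_TI) (hCC : S_CC) (hCZ : S_CZ) (hABS : S_ABS) (hMUL : S_MUL) : S_FP := by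
  intro P X _ _ _ M T ⟨δ, hδ, hdiag⟩
  obtain ⟨N, hN⟩ := hTI P X M T δ hδ (fun a => hdiag _)
  obtain ⟨P0, hP0n, hP0⟩ := exists_proj hMUL M (cR N)
  obtain ⟨G, hG1, hG2, hG3, hG4⟩ := hN P0 hP0
  have g1 : ∀ x, G (P0 x) = G x := fun x => DFunLike.congr_fun hG1 x
  have g3 : ∀ x, G (T (P0 x)) = P0 x := fun x => DFunLike.congr_fun hG3 x
  -- the images of the unit vectors of `c_0`
  obtain ⟨η, hη⟩ : ∃ η, η = δ / (2 * (‖T‖ * ‖G‖ + 1)) := ⟨_, rfl⟩
  have hTG : 0 ≤ ‖T‖ * ‖G‖ := by positivity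
  have hη0 : 0 < η := by rw [hη]; positivity
  obtain ⟨k0, hk0⟩ := hCZ P X M T (fun k => M.e (Sum.inl k)) (fun k => M.norm_e _)
    (fun k a => by rw [M.bi]; simp)
    (fun a => by
      apply tendsto_const_nhds.congr'
      filter_upwards [eventually_gt_atTop a] with k hk
      rw [M.bi, if_neg]
      intro h
      cases h
      exact lt_irrefl _ hk) η hη0
  obtain ⟨S1, hS1⟩ : ∃ S1 : X →L[ℝ] X, S1 = T - T.comp (G.comp T) := ⟨_, rfl⟩
  have hS1a : ∀ x, S1 x = T x - T (G (T x)) := by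
    intro x
    rw [hS1]
    rfl
  have hd1 : ∀ n, k0 ≤ n → δ / 2 ≤ |M.e' (Sum.inl n) (S1 (M.e (Sum.inl n)))| := by
    intro n hn
    have h1 := hdiag (Sum.inl n)
    have h2 : ‖P0 (T (M.e (Sum.inl n)))‖ ≤ η := norm_proj_le M hP0 _ hη0.le (hk0 n hn)
    have h3 : |M.e' (Sum.inl n) (T (G (T (M.e (Sum.inl n)))))| ≤ ‖T‖ * ‖G‖ * η := by
      refine (M.n1 _ n).trans ?_
      rw [← g1]
      calc ‖T (G (P0 (T (M.e (Sum.inl n)))))‖ ≤ ‖T‖ * ‖G (P0 (T (M.e (Sum.inl n))))‖ :=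
            T.le_opNorm _
        _ ≤ ‖T‖ * (‖G‖ * ‖P0 (T (M.e (Sum.inl n)))‖) := by
            gcongr
            exact G.le_opNorm _
        _ ≤ ‖T‖ * (‖G‖ * η) := by gcongr
        _ = ‖T‖ * ‖G‖ * η := by ring
    have h4 : ‖T‖ * ‖G‖ * η ≤ δ / 2 := by
      rw [hη, ← mul_div_assoc, div_le_div_iff₀ (by positivity) (by norm_num)]
      nlinarith
    rw [hS1a, map_sub]
    have h5 := abs_sub_abs_le_abs_sub (M.e' (Sum.inl n) (T (M.e (Sum.inl n))))
      (M.e' (Sum.inl n) (T (G (T (M.e (Sum.inl n))))))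
    linarith
  obtain ⟨A, hA, hAQ⟩ := hCC P X M S1 (δ / 2) k0 (by positivity) hd1
  obtain ⟨Q0, hQ0n, hQ0⟩ := exists_proj hMUL M (cL A)
  obtain ⟨H, hH1, hH2, hH3, hH4⟩ := hAQ Q0 hQ0
  have h3 : ∀ x, H (T (Q0 x)) - H (T (G (T (Q0 x)))) = Q0 x := by
    intro x
    have h := DFunLike.congr_fun hH3 x
    have e : (H.comp (S1.comp Q0)) x = H (S1 (Q0 x)) := rfl
    rw [e, hS1a, map_sub] at h
    exact h
  have hQ : M.IsProj (cL A ∪ cR N) (P0 + Q0) := by
    intro i x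
    have hadd : M.e' i ((P0 + Q0) x) = M.e' i (P0 x) + M.e' i (Q0 x) := by
      rw [add_apply, map_add]
    rw [hadd]
    constructor
    · rintro (hi | hi)
      · have hn : i ∉ cR N := by
          rintro ⟨b, _, hb⟩
          obtain ⟨a, _, ha⟩ := hi
          rw [ha] at hb
          cases hb
        rw [(hP0 i x).2 hn, (hQ0 i x).1 hi, zero_add]
      · have hn : i ∉ cL A := by
          rintro ⟨b, _, hb⟩
          obtain ⟨a, _, ha⟩ := hi
          rw [ha] at hb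
          cases hb
        rw [(hP0 i x).1 hi, (hQ0 i x).2 hn, add_zero]
    · intro hi
      rw [(hP0 i x).2 (fun h => hi (Or.inr h)), (hQ0 i x).2 (fun h => hi (Or.inl h)), add_zero]
  obtain ⟨W, hW⟩ : ∃ W : X →L[ℝ] X, ∀ w, W w = H w - H (T (G w)) - G (T (H w)) +
      G (T (H (T (G w)))) + G w :=
    ⟨H - H.comp (T.comp G) - G.comp (T.comp H) + G.comp (T.comp (H.comp (T.comp G))) + G,
      fun w => rfl⟩
  have hWP : ∀ x, W (T (P0 x)) = P0 x := by
    intro x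
    rw [hW, g3]
    abel
  have hWQ : ∀ x, W (T (Q0 x)) = Q0 x := by
    intro x
    rw [hW]
    have e1 : G (T (H (T (Q0 x)))) - G (T (H (T (G (T (Q0 x)))))) = G (T (Q0 x)) := by
      rw [← map_sub, ← map_sub, h3]
    have e2 := h3 x
    calc H (T (Q0 x)) - H (T (G (T (Q0 x)))) - G (T (H (T (Q0 x)))) +
          G (T (H (T (G (T (Q0 x)))))) + G (T (Q0 x)) =
        (H (T (Q0 x)) - H (T (G (T (Q0 x))))) - (G (T (H (T (Q0 x)))) -
          G (T (H (T (G (T (Q0 x))))))) + G (T (Q0 x)) := by abel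
      _ = Q0 x := by
        rw [e1, e2]
        abel
  obtain ⟨R, S, hRS⟩ := hABS P X M A N hA (P0 + Q0) hQ
  refine ⟨S.comp W, (P0 + Q0).comp R, ?_⟩
  ext x
  have hx := DFunLike.congr_fun hRS x
  have e1 : (S.comp ((P0 + Q0).comp R)) x = S ((P0 + Q0) (R x)) := rfl
  have e2 : ((S.comp W).comp (T.comp ((P0 + Q0).comp R))) x = S (W (T ((P0 + Q0) (R x)))) := rfl
  rw [e1] at hx
  rw [e2, ← hx]
  congr 1
  rw [add_apply, map_add, map_add, hWP, hWQ]

end Pool.Agent.W540.GU
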